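import Pool.Agent.H706R2.FM.Defs

/-! The model integral (task A6). -/

set_option autoImplicit false

namespace Pool.Agent.H706R2.FM

open MeasureTheory Real Set Filter Topology
open scoped RealInnerProductSpace ENNReal

/-- radial substitution -/
theorem A6_radial (p : ℕ) (hp : 2 ≤ p) {κ : ℝ} (hκ : 0 < κ) (F : ℝ → ℝ≥0∞)
    (hF : Measurable F) :
    ∫⁻ w : ℂ, ENNReal.ofReal ((p : ℝ) ^ 2 * κ * ‖w‖ ^ (p - 2)) * F (κ * ‖w‖ ^ p) =
      ENNReal.ofReal (2 * π * p) * ∫⁻ t in Ioi (0:ℝ), F t := by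
  have hp0 : p ≠ 0 := by omega
  have hp' : (0:ℝ) < p := by positivity
  rw [← Complex.lintegral_comp_polarCoord_symm]
  have h1 : ∀ q ∈ polarCoord.target, ENNReal.ofReal q.1 •
      (ENNReal.ofReal ((p : ℝ) ^ 2 * κ * ‖Complex.polarCoord.symm q‖ ^ (p - 2)) *
        F (κ * ‖Complex.polarCoord.symm q‖ ^ p)) =
      ENNReal.ofReal p * (ENNReal.ofReal (|κ * (p * q.1 ^ (p - 1))|) * F (κ * q.1 ^ p)) := by
    rintro ⟨r, θ⟩ hq
    have hr : 0 < r := by
      have := (show (r, θ) ∈ Ioi (0:ℝ) ×ˢ Ioo (-π) π from hq).1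
      exact this
    have hn : ‖Complex.polarCoord.symm (r, θ)‖ = r := by
      rw [Complex.norm_polarCoord_symm]
      exact abs_of_pos hr
    rw [hn, smul_eq_mul, ← mul_assoc, ← mul_assoc]
    congr 1
    have h2 : r ^ (p - 1) = r ^ (p - 2) * r := by
      rw [← pow_succ]
      congr 1
      omega
    simp only
    rw [← ENNReal.ofReal_mul hr.le, ← ENNReal.ofReal_mul hp'.le, abs_of_pos (by positivity), h2]
    congr 1
    ring
  have hm : MeasurableSet (polarCoord.target) := polarCoord.open_target.measurableSet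
  rw [setLIntegral_congr_fun hm h1]
  have ht : polarCoord.target = Ioi (0:ℝ) ×ˢ Ioo (-π) π := rfl
  have hF2 : Measurable fun r : ℝ => ENNReal.ofReal (|κ * (p * r ^ (p - 1))|) * F (κ * r ^ p) := by
    apply Measurable.mul
    · fun_prop
    · apply hF.comp
      fun_prop
  rw [ht, Measure.volume_eq_prod, ← Measure.prod_restrict, lintegral_const_mul, lintegral_prod]
  · simp only [lintegral_const, Measure.restrict_apply MeasurableSet.univ, univ_inter,
      Real.volume_Ioo]
    rw [lintegral_mul_const _ hF2]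
    have himg : (fun r : ℝ => κ * r ^ p) '' Ioi 0 = Ioi 0 := by
      ext t
      simp only [mem_image, mem_Ioi]
      constructor
      · rintro ⟨r, hr, rfl⟩
        positivity
      · intro ht
        refine ⟨(t / κ) ^ (1 / (p:ℝ)), by positivity, ?_⟩
        rw [← Real.rpow_natCast, ← Real.rpow_mul (by positivity)]
        field_simp
        simp
        field_simp
    have hsub := lintegral_image_eq_lintegral_abs_deriv_mul (s := Ioi (0:ℝ))
      (f := fun r : ℝ => κ * r ^ p) (f' := fun r => κ * (p * r ^ (p - 1))) measurableSet_Ioi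
      (fun r _ => ((hasDerivAt_pow p r).const_mul κ).hasDerivWithinAt)
      (by
        intro x hx y hy hxy
        simp only [mem_Ioi] at hx hy
        have h3 : x ^ p = y ^ p := mul_left_cancel₀ hκ.ne' hxy
        exact (pow_left_inj₀ hx.le hy.le hp0).1 h3) F
    rw [himg] at hsub
    rw [hsub, mul_comm (lintegral _ _), ← mul_assoc, ← ENNReal.ofReal_mul hp'.le]
    congr 2
    ring
  · exact (hF2.comp measurable_fst).aemeasurable
  · exact hF2.comp measurable_fst

/-- the one dimensional integral -/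
theorem A6_one {A : ℝ} (hA : 0 < A) (j : ℕ) :
    ∫⁻ t in Ioi (0:ℝ), ENNReal.ofReal (1 / (A + t) ^ (j + 2)) =
      ENNReal.ofReal (1 / ((j + 1) * A ^ (j + 1))) := by
  have hd : ∀ t ∈ Ici (0:ℝ), HasDerivAt (fun t : ℝ => -(1 / ((j + 1) * (A + t) ^ (j + 1))))
      (1 / (A + t) ^ (j + 2)) t := by
    intro t ht
    have ht' : 0 < A + t := by
      have : (0:ℝ) ≤ t := ht
      linarith
    have h1 : HasDerivAt (fun t : ℝ => (j + 1) * (A + t) ^ (j + 1))
        ((j + 1) * ((j + 1 : ℕ) * (A + t) ^ j * 1)) t := by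
      have := ((hasDerivAt_id t).const_add A).pow (j + 1)
      simpa using this.const_mul ((j:ℝ) + 1)
    have h2 := (h1.inv (by positivity)).neg
    simp only [one_div]
    have h3 : ((A + t) ^ (j + 2))⁻¹ = -(-(((j:ℝ) + 1) * (((j + 1 : ℕ) : ℝ) * (A + t) ^ j * 1)) /
        (((j:ℝ) + 1) * (A + t) ^ (j + 1)) ^ 2) := by
      push_cast
      field_simp
      ring
    rw [h3]
    exact h2
  have hlim : Tendsto (fun t : ℝ => -(1 / (((j:ℝ) + 1) * (A + t) ^ (j + 1)))) atTop (𝓝 0) := by
    have h1 : Tendsto (fun t : ℝ => ((j:ℝ) + 1) * (A + t) ^ (j + 1)) atTop atTop := by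
      apply Tendsto.const_mul_atTop (by positivity)
      apply (tendsto_pow_atTop (by omega)).comp
      exact tendsto_atTop_add_const_left _ _ tendsto_id
    have h2 := (tendsto_inv_atTop_zero.comp h1).neg
    simpa [Function.comp_def, one_div] using h2
  have hnn : ∀ t ∈ Ioi (0:ℝ), 0 ≤ 1 / (A + t) ^ (j + 2) := by
    intro t ht
    have ht' : (0:ℝ) < t := ht
    positivity
  have hint := integrableOn_Ioi_deriv_of_nonneg' hd hnn hlim
  have hval := integral_Ioi_of_hasDerivAt_of_nonneg' hd hnn hlim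
  rw [← ofReal_integral_eq_lintegral_ofReal hint, hval]
  · congr 1
    simp
  · filter_upwards [ae_restrict_mem measurableSet_Ioi] with t ht using hnn t ht

theorem A6_gen (p : ℕ) (hp : 2 ≤ p) : ∀ (n : ℕ) (j : ℕ) (A : ℝ) (_ : 0 < A) (κ : Fin n → ℝ)
    (_ : ∀ k, 0 < κ k),
    ∫⁻ w : Fin n → ℂ, ENNReal.ofReal
        ((∏ k, ((p : ℝ) ^ 2 * κ k * ‖w k‖ ^ (p - 2))) / (A + ∑ k, κ k * ‖w k‖ ^ p) ^ (n + j + 1))
      = ENNReal.ofReal ((2 * π * p) ^ n * j.factorial / (n + j).factorial / A ^ (j + 1)) := by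
  intro n
  induction n with
  | zero =>
    intro j A hA κ _
    have : (volume : Measure (Fin 0 → ℂ)) = Measure.dirac 0 := by
      rw [volume_pi, Measure.pi_of_empty]
      congr 1
      exact Subsingleton.elim _ _
    rw [this, lintegral_dirac]
    have h := Nat.factorial_pos j
    have h' : (j.factorial : ℝ) ≠ 0 := by positivity
    simp
    field_simp
  | succ n ih =>
    intro j A hA κ hκ
    have hp' : (0:ℝ) < p := by
      have : 0 < p := by omega
      exact_mod_cast this
    rw [← (volume_preserving_piFinSuccAbove (fun _ : Fin (n + 1) => ℂ) 0).symm.lintegral_comp_emb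
      (MeasurableEquiv.measurableEmbedding _)]
    have hmeas : Measurable fun z : ℂ × (Fin n → ℂ) => ENNReal.ofReal
        ((∏ k, ((p : ℝ) ^ 2 * κ k * ‖(MeasurableEquiv.piFinSuccAbove (fun _ : Fin (n + 1) => ℂ) 0).symm
          z k‖ ^ (p - 2))) /
        (A + ∑ k, κ k * ‖(MeasurableEquiv.piFinSuccAbove (fun _ : Fin (n + 1) => ℂ) 0).symm z k‖ ^ p) ^
          (n + 1 + j + 1)) := by
      have hm : Measurable fun z : ℂ × (Fin n → ℂ) =>
          (MeasurableEquiv.piFinSuccAbove (fun _ : Fin (n + 1) => ℂ) 0).symm z :=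
        (MeasurableEquiv.piFinSuccAbove (fun _ : Fin (n + 1) => ℂ) 0).symm.measurable
      have hm' : ∀ k, Measurable fun z : ℂ × (Fin n → ℂ) =>
          (MeasurableEquiv.piFinSuccAbove (fun _ : Fin (n + 1) => ℂ) 0).symm z k :=
        fun k => (measurable_pi_apply k).comp hm
      fun_prop
    rw [Measure.volume_eq_prod, lintegral_prod _ hmeas.aemeasurable]
    have key : ∀ w : ℂ, ∫⁻ v : Fin n → ℂ, ENNReal.ofReal
        ((∏ k, ((p : ℝ) ^ 2 * κ k * ‖(MeasurableEquiv.piFinSuccAbove (fun _ : Fin (n + 1) => ℂ) 0).symm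
          (w, v) k‖ ^ (p - 2))) /
        (A + ∑ k, κ k * ‖(MeasurableEquiv.piFinSuccAbove (fun _ : Fin (n + 1) => ℂ) 0).symm
          (w, v) k‖ ^ p) ^ (n + 1 + j + 1)) =
        ENNReal.ofReal ((p : ℝ) ^ 2 * κ 0 * ‖w‖ ^ (p - 2)) *
        (ENNReal.ofReal ((2 * π * p) ^ n * (j + 1).factorial / (n + (j + 1)).factorial) *
          ENNReal.ofReal (1 / (A + κ 0 * ‖w‖ ^ p) ^ (j + 2))) := by
      intro w
      have hA' : 0 < A + κ 0 * ‖w‖ ^ p := by
        have := hκ 0
        positivity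
      have h1 := ih (j + 1) (A + κ 0 * ‖w‖ ^ p) hA' (fun k => κ k.succ) (fun k => hκ _)
      rw [← ENNReal.ofReal_mul (by positivity)]
      have h2 : (2 * π * p) ^ n * ((j + 1).factorial : ℝ) / ((n + (j + 1)).factorial : ℝ) *
          (1 / (A + κ 0 * ‖w‖ ^ p) ^ (j + 2)) = (2 * π * p) ^ n * ((j + 1).factorial : ℝ) /
          ((n + (j + 1)).factorial : ℝ) / (A + κ 0 * ‖w‖ ^ p) ^ (j + 1 + 1) := by
        field_simp
      rw [h2, ← h1, ← lintegral_const_mul]
      · apply lintegral_congr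
        intro v
        have hk0 := hκ 0
        rw [← ENNReal.ofReal_mul (by positivity)]
        congr 1
        rw [Fin.prod_univ_succ, Fin.sum_univ_succ]
        simp only [MeasurableEquiv.piFinSuccAbove_symm_apply, Fin.insertNthEquiv_apply,
          Fin.insertNth_zero', Fin.cons_zero, Fin.cons_succ]
        rw [← add_assoc, show n + 1 + j + 1 = n + (j + 1) + 1 by ring]
        ring
      · fun_prop
    simp only [key]
    have hF : Measurable fun t : ℝ => ENNReal.ofReal ((2 * π * p) ^ n * (j + 1).factorial /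
        (n + (j + 1)).factorial) * ENNReal.ofReal (1 / (A + t) ^ (j + 2)) := by
      fun_prop
    have h3 := A6_radial p hp (hκ 0) _ hF
    rw [h3, lintegral_const_mul _ (by fun_prop), A6_one hA j, ← ENNReal.ofReal_mul (by positivity),
      ← ENNReal.ofReal_mul (by positivity)]
    congr 1
    have h4 : ((j + 1).factorial : ℝ) = (j + 1) * j.factorial := by
      rw [Nat.factorial_succ]
      push_cast
      ring
    rw [h4, show n + 1 + j = n + (j + 1) by ring]
    have h5 : ((n + (j + 1)).factorial : ℝ) ≠ 0 := by positivity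
    field_simp
    ring

/-- A6. The model integral. -/
theorem A6_model (n p : ℕ) (hp : 2 ≤ p) (κ : Fin n → ℝ) (hκ : ∀ k, 0 < κ k) :
    ∫⁻ w : Fin n → ℂ, ENNReal.ofReal
        ((∏ k, ((p : ℝ) ^ 2 * κ k * ‖w k‖ ^ (p - 2))) / (1 + ∑ k, κ k * ‖w k‖ ^ p) ^ (n + 1))
      = ENNReal.ofReal ((2 * π * p) ^ n / n.factorial) := by
  have h := A6_gen p hp n 0 1 one_pos κ hκ
  simp only [Nat.add_zero, Nat.factorial_zero, Nat.cast_one, mul_one, zero_add, one_pow,
    div_one] at h
  exact h

end Pool.Agent.H706R2.FM
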